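import Pool.Agent.Helper61.RC.Base2

/-!
# Cuntz comparison in an abstract unital C*-algebra (modules RC-1, RC-2, RC-3)
-/

open scoped ENNReal NNReal Topology CStarAlgebra ComplexOrder
open Filter

noncomputable section

namespace Pool.Agent.Helper61.RC

section A
variable {M : Type*} [CStarAlgebra M] [PartialOrder M] [StarOrderedRing M]

set_option linter.unusedSectionVars false

namespace CuntzAux

lemma star_fc (f : ℝ → ℝ) (a : M) : star (fc f a) = fc f a := by
  have h : IsSelfAdjoint (fc f a) := cfc_predicate f a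
  exact h.star_eq

lemma fc_mul_fc (f g : ℝ → ℝ) (a : M) (hf : ContinuousOn f (spectrum ℝ a))
    (hg : ContinuousOn g (spectrum ℝ a)) : fc f a * fc g a = fc (fun t => f t * g t) a := by
  unfold fc
  rw [cfc_mul f g a hf hg]

lemma fc_id (a : M) (ha : IsSelfAdjoint a) : fc (fun t => t) a = a := by
  unfold fc
  exact cfc_id' ℝ a ha

lemma fc_congr {f g : ℝ → ℝ} {a : M} (h : ∀ t ∈ spectrum ℝ a, f t = g t) : fc f a = fc g a := by
  unfold fc
  exact cfc_congr h

lemma norm_fc_le {f : ℝ → ℝ} {a : M} {c : ℝ} (hc : 0 ≤ c)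
    (h : ∀ t ∈ spectrum ℝ a, |f t| ≤ c) : ‖fc f a‖ ≤ c := by
  unfold fc
  exact norm_cfc_le hc (fun t ht => by simpa [Real.norm_eq_abs] using h t ht)

lemma fc_sub_fc (f g : ℝ → ℝ) (a : M) (hf : ContinuousOn f (spectrum ℝ a))
    (hg : ContinuousOn g (spectrum ℝ a)) : fc f a - fc g a = fc (fun t => f t - g t) a := by
  unfold fc
  rw [cfc_sub f g a hf hg]

lemma spec_nonneg {a : M} (ha : 0 ≤ a) : ∀ t ∈ spectrum ℝ a, 0 ≤ t :=
  fun _ ht => spectrum_nonneg_of_nonneg ha ht

end CuntzAux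

open CuntzAux

-- RC-1
theorem CuntzLE.of_le {a b : M} (ha : 0 ≤ a) (hab : a ≤ b) : CuntzLE a b := by
  intro ε hε
  have hb : 0 ≤ b := ha.trans hab
  set δ : ℝ := ε / 2 with hδ
  have hδ0 : 0 < δ := by positivity
  have hsa : IsSelfAdjoint a := IsSelfAdjoint.of_nonneg ha
  have hsb : IsSelfAdjoint b := IsSelfAdjoint.of_nonneg hb
  set A : M := fc Real.sqrt a with hA
  have hAA : A * A = a := by
    rw [hA, fc_mul_fc _ _ _ Real.continuous_sqrt.continuousOn Real.continuous_sqrt.continuousOn]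
    rw [fc_congr (g := fun t => t) fun t ht => Real.mul_self_sqrt (spec_nonneg ha t ht)]
    exact fc_id a hsa
  have hAs : star A = A := star_fc _ _
  set g : ℝ → ℝ := fun t => (Real.sqrt (t + δ))⁻¹ with hg
  have hgc : ContinuousOn g (spectrum ℝ b) := by
    refine ContinuousOn.inv₀ (Real.continuous_sqrt.comp (continuous_id.add continuous_const)).continuousOn ?_
    intro t ht
    have h0 := spec_nonneg hb t ht
    have : 0 < Real.sqrt (t + δ) := Real.sqrt_pos.mpr (by linarith)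
    exact this.ne'
  set G : M := fc g b with hG
  have hGs : star G = G := star_fc _ _
  have hgg : ∀ t ∈ spectrum ℝ b, g t * g t = (t + δ)⁻¹ := by
    intro t ht
    have h0 := spec_nonneg hb t ht
    simp only [hg]
    rw [← mul_inv, Real.mul_self_sqrt (by linarith)]
  have hid : ContinuousOn (fun t : ℝ => t) (spectrum ℝ b) := continuousOn_id
  have hGbG : G * b * G = fc (fun t => g t * t * g t) b := by
    have h1 : G * b = fc (fun t => g t * t) b := by
      conv_lhs => rw [← fc_id b hsb]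
      rw [fc_id b hsb, hG]
      conv_lhs => rw [← fc_id b hsb]
      rw [fc_id b hsb]
      have := fc_mul_fc g (fun t => t) b hgc hid
      rw [fc_id b hsb] at this
      exact this
    rw [h1, hG]
    exact fc_mul_fc (fun t => g t * t) g b (hgc.mul hid) hgc
  have hGG : G * G = fc (fun t => g t * g t) b := by
    rw [hG, fc_mul_fc _ _ _ hgc hgc]
  have hsum : G * b * G + (δ : ℝ) • (G * G) = 1 := by
    rw [hGbG, hGG]
    unfold fc
    rw [← cfc_smul δ (fun t => g t * g t) b (hgc.mul hgc)]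
    rw [← cfc_add b (fun t => g t * t * g t) (fun t => δ • (g t * g t)) ((hgc.mul hid).mul hgc)
      ((hgc.mul hgc).const_smul δ)]
    rw [cfc_congr (g := fun _ => (1 : ℝ))]
    · exact cfc_const_one ℝ b
    · intro t ht
      have h0 := spec_nonneg hb t ht
      have h1 := hgg t ht
      have h2 : t + δ ≠ 0 := by linarith
      simp only [smul_eq_mul]
      have : g t * t * g t + δ * (g t * g t) = (t + δ) * (g t * g t) := by ring
      rw [this, h1, mul_inv_cancel₀ h2]
  have hnGbG : ‖G * b * G‖ ≤ 1 := by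
    rw [hGbG]
    refine norm_fc_le zero_le_one ?_
    intro t ht
    have h0 := spec_nonneg hb t ht
    have h1 := hgg t ht
    have : g t * t * g t = t * (t + δ)⁻¹ := by rw [← h1]; ring
    rw [this, abs_of_nonneg (by positivity), ← div_eq_mul_inv, div_le_one (by linarith)]
    linarith
  have hnGaG : ‖G * a * G‖ ≤ 1 := by
    refine le_trans ?_ hnGbG
    refine CStarAlgebra.norm_le_norm_of_nonneg_of_le ?_ ?_
    · have := star_left_conjugate_nonneg ha G
      rwa [hGs] at this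
    · have := star_left_conjugate_le_conjugate hab G
      rwa [hGs] at this
  refine ⟨A * G, ?_⟩
  have hstar : star (A * G) = G * A := by rw [star_mul, hAs, hGs]
  have key : A * G * b * star (A * G) - a = -((δ : ℝ) • ((A * G) * star (A * G))) := by
    rw [hstar]
    have h1 : A * G * b * (G * A) = A * (G * b * G) * A := by simp only [mul_assoc]
    have h2 : G * b * G = 1 - (δ : ℝ) • (G * G) := by rw [← hsum]; abel
    have h3 : (A * G) * (G * A) = A * (G * G) * A := by simp only [mul_assoc]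
    rw [h1, h2, h3, mul_sub, sub_mul, mul_one, hAA, mul_smul_comm, smul_mul_assoc]
    abel
  rw [key, norm_neg, norm_smul, Real.norm_eq_abs, abs_of_pos hδ0]
  have h4 : ‖A * G * star (A * G)‖ = ‖G * a * G‖ := by
    rw [CStarRing.norm_self_mul_star, ← CStarRing.norm_star_mul_self, hstar]
    congr 1
    rw [← hAA]
    simp only [mul_assoc]
  rw [h4]
  calc δ * ‖G * a * G‖ ≤ δ * 1 := by gcongr
    _ < ε := by rw [hδ]; linarith

theorem CuntzLE.trans {a b c : M} (hab : CuntzLE a b) (hbc : CuntzLE b c) : CuntzLE a c := by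
  intro ε hε
  obtain ⟨w, hw⟩ := hab (ε / 2) (by positivity)
  have hpos : 0 < ε / (2 * (‖w‖ * ‖w‖ + 1)) := by positivity
  obtain ⟨v, hv⟩ := hbc _ hpos
  refine ⟨w * v, ?_⟩
  have h1 : w * v * c * star (w * v) - a
      = w * (v * c * star v - b) * star w + (w * b * star w - a) := by
    rw [star_mul]
    noncomm_ring
  rw [h1]
  have h2 : ‖w * (v * c * star v - b) * star w‖ ≤ ‖w‖ * ‖w‖ * (ε / (2 * (‖w‖ * ‖w‖ + 1))) := by
    calc ‖w * (v * c * star v - b) * star w‖ ≤ ‖w‖ * ‖v * c * star v - b‖ * ‖star w‖ := by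
          refine (norm_mul_le _ _).trans ?_
          gcongr
          exact norm_mul_le _ _
      _ = ‖w‖ * ‖w‖ * ‖v * c * star v - b‖ := by rw [norm_star]; ring
      _ ≤ _ := by gcongr
  have h3 : ‖w‖ * ‖w‖ * (ε / (2 * (‖w‖ * ‖w‖ + 1))) ≤ ε / 2 := by
    rw [← mul_div_assoc, div_le_div_iff₀ (by positivity) (by positivity)]
    nlinarith [mul_nonneg (norm_nonneg w) (norm_nonneg w)]
  calc ‖w * (v * c * star v - b) * star w + (w * b * star w - a)‖
      ≤ ‖w * (v * c * star v - b) * star w‖ + ‖w * b * star w - a‖ := norm_add_le _ _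
    _ < ε := by linarith

theorem CuntzLE.of_approx {a b : M} (h : ∀ ε : ℝ, 0 < ε → ∃ x : M, ‖x - a‖ ≤ ε ∧ CuntzLE x b) :
    CuntzLE a b := by
  intro ε hε
  obtain ⟨x, hx, hxb⟩ := h (ε / 2) (by positivity)
  obtain ⟨v, hv⟩ := hxb (ε / 2) (by positivity)
  refine ⟨v, ?_⟩
  have : v * b * star v - a = (v * b * star v - x) + (x - a) := by abel
  rw [this]
  calc _ ≤ ‖v * b * star v - x‖ + ‖x - a‖ := norm_add_le _ _
    _ < ε := by linarith

theorem CuntzLE.conj (v b : M) : CuntzLE (v * b * star v) b := by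
  intro ε hε
  exact ⟨v, by simpa using hε⟩

theorem CuntzLE.smul_left {a b : M} (c : ℝ) (hc : 0 ≤ c) (h : CuntzLE a b) :
    CuntzLE ((c : ℂ) • a) b := by
  intro ε hε
  have hpos : 0 < ε / (c + 1) := by positivity
  obtain ⟨v, hv⟩ := h _ hpos
  refine ⟨((Real.sqrt c : ℝ) : ℂ) • v, ?_⟩
  have h1 : ((Real.sqrt c : ℝ) : ℂ) • v * b * star (((Real.sqrt c : ℝ) : ℂ) • v) - (c : ℂ) • a
      = (c : ℂ) • (v * b * star v - a) := by
    rw [star_smul, smul_mul_assoc, smul_mul_assoc, mul_smul_comm, smul_smul]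
    have : ((Real.sqrt c : ℝ) : ℂ) * star ((Real.sqrt c : ℝ) : ℂ) = (c : ℂ) := by
      rw [Complex.star_def, Complex.conj_ofReal, ← Complex.ofReal_mul, Real.mul_self_sqrt hc]
    rw [this, smul_sub]
  rw [h1, norm_smul, Complex.norm_real, Real.norm_eq_abs, abs_of_nonneg hc]
  rcases hc.eq_or_lt with rfl | hc'
  · simpa using hε
  calc c * ‖v * b * star v - a‖ < c * (ε / (c + 1)) := by gcongr
    _ ≤ ε := by
      rw [← mul_div_assoc, div_le_iff₀ (by positivity)]
      nlinarith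

theorem CuntzLE.of_le_smul {a b : M} (ha : 0 ≤ a) (C : ℝ) (hC : 0 < C)
    (hab : a ≤ (C : ℂ) • b) : CuntzLE a b := by
  have h1 : CuntzLE b b := by
    have := CuntzLE.conj (1 : M) b
    simpa using this
  exact (CuntzLE.of_le ha hab).trans (h1.smul_left C hC.le)

-- RC-2
theorem CuntzLE.cut_of_le {x y : M} (hx : IsSelfAdjoint x) (hy : 0 ≤ y) {δ : ℝ}
    (h : x ≤ y + (δ : ℂ) • (1 : M)) : CuntzLE (cut δ x) y := by
  refine CuntzLE.of_approx fun ε hε => ?_
  set k : ℝ := ε⁻¹ with hk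
  have hk0 : 0 < k := by positivity
  set e : ℝ → ℝ := fun t => min 1 (k * max (t - δ) 0) with he
  have hec : Continuous e := by
    refine continuous_const.min (continuous_const.mul ?_)
    exact (continuous_id.sub continuous_const).max continuous_const
  set E : M := fc e x with hE
  have hEs : star E = E := star_fc _ _
  have hxd : x - (δ : ℂ) • (1 : M) = fc (fun t => t - δ) x := by
    unfold fc
    rw [cfc_sub (fun t => t) (fun _ => δ) x continuousOn_id continuousOn_const, cfc_id' ℝ x hx,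
      cfc_const δ x hx, Algebra.algebraMap_eq_smul_one]
    rfl
  have hconj : E * (x - (δ : ℂ) • (1 : M)) * E = fc (fun t => e t * (t - δ) * e t) x := by
    have hc1 : ContinuousOn (fun t : ℝ => t - δ) (spectrum ℝ x) := by fun_prop
    rw [hxd, hE, fc_mul_fc e (fun t => t - δ) x hec.continuousOn hc1]
    exact fc_mul_fc (fun t => e t * (t - δ)) e x (hec.continuousOn.mul hc1) hec.continuousOn
  refine ⟨E * (x - (δ : ℂ) • (1 : M)) * E, ?_, ?_⟩
  · rw [hconj]
    unfold cut
    rw [fc_sub_fc (fun t => e t * (t - δ) * e t) (fun t => max (t - δ) 0) x (by fun_prop)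
      (by fun_prop)]
    refine norm_fc_le hε.le ?_
    intro t _
    rcases le_total t δ with htd | htd
    · have h0 : max (t - δ) 0 = 0 := max_eq_right (by linarith)
      have h1 : e t = 0 := by simp [he, h0]
      rw [h1, h0]
      simp [hε.le]
    · have h0 : max (t - δ) 0 = t - δ := max_eq_left (by linarith)
      rw [h0]
      have he' : e t = min 1 (k * (t - δ)) := by simp only [he, h0]
      rcases le_total 1 (k * (t - δ)) with h2 | h2
      · rw [he', min_eq_left h2]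
        simp [hε.le]
      · have h3 : 0 ≤ e t := by rw [he']; exact le_min zero_le_one (mul_nonneg hk0.le (by linarith))
        have h4 : e t ≤ 1 := by rw [he']; exact min_le_left _ _
        have h5 : t - δ ≤ ε := by
          rw [hk, inv_mul_le_iff₀ hε] at h2
          linarith
        have h6 : e t * (t - δ) * e t - (t - δ) = -((t - δ) * (1 - e t * e t)) := by ring
        rw [h6, abs_neg, abs_of_nonneg (mul_nonneg (by linarith) (by nlinarith))]
        have h7 : (t - δ) * (1 - e t * e t) ≤ (t - δ) * 1 := by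
          refine mul_le_mul_of_nonneg_left ?_ (by linarith)
          nlinarith
        linarith
  · have hle : E * (x - (δ : ℂ) • (1 : M)) * E ≤ E * y * E := by
      have h1 : x - (δ : ℂ) • (1 : M) ≤ y := by
        rw [sub_le_iff_le_add]
        exact h
      have := star_left_conjugate_le_conjugate h1 E
      rwa [hEs] at this
    have hnn : 0 ≤ E * (x - (δ : ℂ) • (1 : M)) * E := by
      rw [hconj]
      unfold fc
      refine cfc_nonneg fun t _ => ?_
      rcases le_total t δ with htd | htd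
      · have h0 : max (t - δ) 0 = 0 := max_eq_right (by linarith)
        have h1 : e t = 0 := by simp [he, h0]
        rw [h1]
        simp
      · have h3 : 0 ≤ e t := by
          simp only [he]
          exact le_min zero_le_one (mul_nonneg hk0.le (le_max_right _ _))
        exact mul_nonneg (mul_nonneg h3 (by linarith)) h3
    have h2 := CuntzLE.conj E y
    rw [hEs] at h2
    exact (CuntzLE.of_le hnn hle).trans h2

-- RC-3
theorem CuntzLE.add_of_orth {x₁ x₂ b₁ b₂ : M} (hb₁ : 0 ≤ b₁) (hb₂ : 0 ≤ b₂) (hb : b₁ * b₂ = 0)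
    (h₁ : CuntzLE x₁ b₁) (h₂ : CuntzLE x₂ b₂) : CuntzLE (x₁ + x₂) (b₁ + b₂) := by
  have hs₁ : star b₁ = b₁ := (IsSelfAdjoint.of_nonneg hb₁).star_eq
  have hs₂ : star b₂ = b₂ := (IsSelfAdjoint.of_nonneg hb₂).star_eq
  have hb' : b₂ * b₁ = 0 := by
    have := congrArg star hb
    rwa [star_mul, hs₁, hs₂, star_zero] at this
  -- approximate units
  have key : ∀ {b : M}, 0 ≤ b → ∀ δ : ℝ, 0 < δ → ∃ k : M, star k = k ∧ b * k = k * b ∧
      ‖(k * b) * b * (k * b) - b‖ ≤ 2 * δ := by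
    intro b hb0 δ hδ
    have hsb : IsSelfAdjoint b := IsSelfAdjoint.of_nonneg hb0
    set g : ℝ → ℝ := fun t => (t + δ)⁻¹ with hg
    have hgc : ContinuousOn g (spectrum ℝ b) := by
      refine ContinuousOn.inv₀ (by fun_prop) ?_
      intro t ht
      have h0 := spec_nonneg hb0 t ht
      linarith
    have hid : ContinuousOn (fun t : ℝ => t) (spectrum ℝ b) := continuousOn_id
    have hkb : fc g b * b = fc (fun t => g t * t) b := by
      have := fc_mul_fc g (fun t => t) b hgc hid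
      rwa [fc_id b hsb] at this
    have hbk : b * fc g b = fc (fun t => t * g t) b := by
      have := fc_mul_fc (fun t => t) g b hid hgc
      rwa [fc_id b hsb] at this
    refine ⟨fc g b, star_fc _ _, ?_, ?_⟩
    · rw [hkb, hbk]
      exact fc_congr fun t _ => mul_comm _ _
    · have h1 : (fc g b * b) * b * (fc g b * b) = fc (fun t => g t * t * t * (g t * t)) b := by
        rw [hkb]
        have h2 : fc (fun t => g t * t) b * b = fc (fun t => g t * t * t) b := by
          have := fc_mul_fc (fun t => g t * t) (fun t => t) b (hgc.mul hid) hid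
          rwa [fc_id b hsb] at this
        rw [h2]
        exact fc_mul_fc (fun t => g t * t * t) (fun t => g t * t) b ((hgc.mul hid).mul hid)
          (hgc.mul hid)
      have h3 : (fc g b * b) * b * (fc g b * b) - b
          = fc (fun t => g t * t * t * (g t * t) - t) b := by
        rw [h1]
        have := fc_sub_fc (fun t => g t * t * t * (g t * t)) (fun t => t) b
          (((hgc.mul hid).mul hid).mul (hgc.mul hid)) hid
        rwa [fc_id b hsb] at this
      rw [h3]
      refine norm_fc_le (by positivity) ?_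
      intro t ht
      have h0 := spec_nonneg hb0 t ht
      have hp : 0 < t + δ := by linarith
      have h4 : g t * t * t * (g t * t) - t = -(t * δ * (2 * t + δ) / ((t + δ) * (t + δ))) := by
        simp only [hg]
        field_simp
        ring
      rw [h4, abs_neg, abs_of_nonneg (by positivity), div_le_iff₀ (by positivity)]
      nlinarith [mul_nonneg h0 hδ.le, mul_nonneg (mul_nonneg h0 hδ.le) hδ.le,
        mul_nonneg (mul_nonneg h0 h0) hδ.le, mul_nonneg (mul_nonneg hδ.le hδ.le) hδ.le]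
  intro ε hε
  obtain ⟨v₁, hv₁⟩ := h₁ (ε / 4) (by positivity)
  obtain ⟨v₂, hv₂⟩ := h₂ (ε / 4) (by positivity)
  set V : ℝ := ‖v₁‖ * ‖v₁‖ + ‖v₂‖ * ‖v₂‖ + 1 with hV
  have hV0 : 0 < V := by positivity
  set δ : ℝ := ε / (8 * V) with hδ
  have hδ0 : 0 < δ := by positivity
  obtain ⟨k₁, hk₁s, hk₁c, hk₁n⟩ := key hb₁ δ hδ0
  obtain ⟨k₂, hk₂s, hk₂c, hk₂n⟩ := key hb₂ δ hδ0
  refine ⟨v₁ * (k₁ * b₁) + v₂ * (k₂ * b₂), ?_⟩
  have hst : star (v₁ * (k₁ * b₁) + v₂ * (k₂ * b₂))
      = (k₁ * b₁) * star v₁ + (k₂ * b₂) * star v₂ := by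
    rw [star_add, star_mul, star_mul, star_mul, star_mul, hs₁, hs₂, hk₁s, hk₂s, hk₁c, hk₂c]
  have hexp : (v₁ * (k₁ * b₁) + v₂ * (k₂ * b₂)) * (b₁ + b₂)
      * star (v₁ * (k₁ * b₁) + v₂ * (k₂ * b₂)) - (x₁ + x₂)
      = v₁ * ((k₁ * b₁) * b₁ * (k₁ * b₁) - b₁) * star v₁
        + v₂ * ((k₂ * b₂) * b₂ * (k₂ * b₂) - b₂) * star v₂
        + (v₁ * b₁ * star v₁ - x₁) + (v₂ * b₂ * star v₂ - x₂) := by
    rw [hst]
    have e1 : (v₁ * (k₁ * b₁) + v₂ * (k₂ * b₂)) * (b₁ + b₂)
        = v₁ * ((k₁ * b₁) * b₁) + v₂ * ((k₂ * b₂) * b₂) := by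
      have t1 : k₁ * b₁ * b₂ = 0 := by rw [mul_assoc, hb, mul_zero]
      have t2 : k₂ * b₂ * b₁ = 0 := by rw [mul_assoc, hb', mul_zero]
      calc (v₁ * (k₁ * b₁) + v₂ * (k₂ * b₂)) * (b₁ + b₂)
          = v₁ * ((k₁ * b₁) * b₁) + v₁ * (k₁ * b₁ * b₂) + (v₂ * (k₂ * b₂ * b₁)
            + v₂ * ((k₂ * b₂) * b₂)) := by noncomm_ring
        _ = _ := by rw [t1, t2]; simp
    rw [e1]
    have t3 : b₁ * (k₂ * b₂) = 0 := by rw [← hk₂c, ← mul_assoc, hb, zero_mul]
    have t4 : b₂ * (k₁ * b₁) = 0 := by rw [← hk₁c, ← mul_assoc, hb', zero_mul]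
    have e2 : (v₁ * ((k₁ * b₁) * b₁) + v₂ * ((k₂ * b₂) * b₂))
        * ((k₁ * b₁) * star v₁ + (k₂ * b₂) * star v₂)
        = v₁ * ((k₁ * b₁) * b₁ * (k₁ * b₁)) * star v₁
          + v₂ * ((k₂ * b₂) * b₂ * (k₂ * b₂)) * star v₂ := by
      calc (v₁ * ((k₁ * b₁) * b₁) + v₂ * ((k₂ * b₂) * b₂))
            * ((k₁ * b₁) * star v₁ + (k₂ * b₂) * star v₂)
          = v₁ * ((k₁ * b₁) * b₁ * (k₁ * b₁)) * star v₁
            + v₁ * (k₁ * b₁) * (b₁ * (k₂ * b₂)) * star v₂
            + (v₂ * (k₂ * b₂) * (b₂ * (k₁ * b₁)) * star v₁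
            + v₂ * ((k₂ * b₂) * b₂ * (k₂ * b₂)) * star v₂) := by noncomm_ring
        _ = _ := by rw [t3, t4]; simp
    rw [e2]
    noncomm_ring
  rw [hexp]
  have n1 : ‖v₁ * ((k₁ * b₁) * b₁ * (k₁ * b₁) - b₁) * star v₁‖ ≤ ‖v₁‖ * ‖v₁‖ * (2 * δ) := by
    calc ‖v₁ * ((k₁ * b₁) * b₁ * (k₁ * b₁) - b₁) * star v₁‖
        ≤ ‖v₁‖ * ‖(k₁ * b₁) * b₁ * (k₁ * b₁) - b₁‖ * ‖star v₁‖ := by
          refine (norm_mul_le _ _).trans ?_
          gcongr
          exact norm_mul_le _ _
      _ = ‖v₁‖ * ‖v₁‖ * ‖(k₁ * b₁) * b₁ * (k₁ * b₁) - b₁‖ := by rw [norm_star]; ring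
      _ ≤ _ := by gcongr
  have n2 : ‖v₂ * ((k₂ * b₂) * b₂ * (k₂ * b₂) - b₂) * star v₂‖ ≤ ‖v₂‖ * ‖v₂‖ * (2 * δ) := by
    calc ‖v₂ * ((k₂ * b₂) * b₂ * (k₂ * b₂) - b₂) * star v₂‖
        ≤ ‖v₂‖ * ‖(k₂ * b₂) * b₂ * (k₂ * b₂) - b₂‖ * ‖star v₂‖ := by
          refine (norm_mul_le _ _).trans ?_
          gcongr
          exact norm_mul_le _ _
      _ = ‖v₂‖ * ‖v₂‖ * ‖(k₂ * b₂) * b₂ * (k₂ * b₂) - b₂‖ := by rw [norm_star]; ring
      _ ≤ _ := by gcongr
  have n3 : ‖v₁‖ * ‖v₁‖ * (2 * δ) + ‖v₂‖ * ‖v₂‖ * (2 * δ) ≤ ε / 4 := by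
    have : ‖v₁‖ * ‖v₁‖ * (2 * δ) + ‖v₂‖ * ‖v₂‖ * (2 * δ) ≤ V * (2 * δ) := by
      rw [hV]; nlinarith
    refine this.trans ?_
    rw [hδ]
    have : V * (2 * (ε / (8 * V))) = ε / 4 := by
      field_simp
      ring
    rw [this]
  calc _ ≤ ‖v₁ * ((k₁ * b₁) * b₁ * (k₁ * b₁) - b₁) * star v₁‖
        + ‖v₂ * ((k₂ * b₂) * b₂ * (k₂ * b₂) - b₂) * star v₂‖
        + ‖v₁ * b₁ * star v₁ - x₁‖ + ‖v₂ * b₂ * star v₂ - x₂‖ := by
          refine (norm_add_le _ _).trans ?_
          gcongr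
          refine (norm_add_le _ _).trans ?_
          gcongr
          exact norm_add_le _ _
    _ < ε := by linarith

theorem CuntzLE.sum_of_orth {ι : Type*} (s : Finset ι) (x b : ι → M) (hb : ∀ i ∈ s, 0 ≤ b i)
    (horth : ∀ i ∈ s, ∀ j ∈ s, i ≠ j → b i * b j = 0) (h : ∀ i ∈ s, CuntzLE (x i) (b i)) :
    CuntzLE (∑ i ∈ s, x i) (∑ i ∈ s, b i) := by
  classical
  induction s using Finset.induction_on with
  | empty =>
    intro ε hε
    exact ⟨0, by simpa using hε⟩
  | insert i s his ih =>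
    rw [Finset.sum_insert his, Finset.sum_insert his]
    refine CuntzLE.add_of_orth (hb i (Finset.mem_insert_self _ _))
      (Finset.sum_nonneg fun j hj => hb j (Finset.mem_insert_of_mem hj)) ?_
      (h i (Finset.mem_insert_self _ _))
      (ih (fun j hj => hb j (Finset.mem_insert_of_mem hj))
        (fun j hj l hl hjl => horth j (Finset.mem_insert_of_mem hj) l
          (Finset.mem_insert_of_mem hl) hjl)
        (fun j hj => h j (Finset.mem_insert_of_mem hj)))
    rw [Finset.mul_sum]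
    refine Finset.sum_eq_zero fun j hj => ?_
    refine horth i (Finset.mem_insert_self _ _) j (Finset.mem_insert_of_mem hj) ?_
    rintro rfl
    exact his hj

end A

end Pool.Agent.Helper61.RC
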